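import Pool.Agent.Helper12.SG.GoalsE

/-!
# Project SG (MP_a41896_nt), module B, packet EXTR: degrees and coefficients from norms
-/

set_option autoImplicit false

open MvPolynomial

namespace Pool.Agent.Helper35.SGB

open WeierstrassCurve Height Height.AdmissibleAbsValues
open Pool.Agent.Helper29.BL Pool.Agent.Helper42.SG Pool.Agent.Helper12.SG

noncomputable section

theorem rpw_two (a b : ℝ) (α : Fin 2 →₀ ℕ) : rpw ![a, b] α = a ^ α 0 * b ^ α 1 := by
  unfold rpw
  rw [Finsupp.prod_fintype _ _ (fun i => pow_zero _), Fin.prod_univ_two]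
  rfl

theorem nps_le {K : Type} [Field K] {v : AbsoluteValue K ℝ} {a b S : ℝ}
    {g : MvPolynomial (Fin 2) K} (h : NMP v a b g S) (α : Fin 2 →₀ ℕ) :
    v (coeff α g) * (a ^ α 0 * b ^ α 1) ≤ S := by
  obtain ⟨-, h1, h2⟩ := h
  by_cases hv : IsNonarchimedean v
  · have h3 := h1 hv α
    rwa [rpw_two, MvPolynomial.coeff_coe] at h3
  · have h3 := h2 hv {α}
    rwa [Finset.sum_singleton, rpw_two, MvPolynomial.coeff_coe] at h3

theorem key {K : Type} [Field K] {v : AbsoluteValue K ℝ} {β : MvPolynomial (Fin 2) K}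
    {f : QuadraticAlgebra (MvPolynomial (Fin 2) K) β 0} {a b w T : ℝ} (hw : 0 ≤ w)
    (h : NQ v (NMP v a b) w β f T) (α : Fin 2 →₀ ℕ) :
    v (coeff α f.re) * (a ^ α 0 * b ^ α 1) ≤ T ∧
      w * (v (coeff α f.im) * (a ^ α 0 * b ^ α 1)) ≤ T := by
  obtain ⟨S, S', hS, hS', h1, h2⟩ := h
  have hS0 : 0 ≤ S := hS.1
  have hS0' : 0 ≤ S' := hS'.1
  have k1 := nps_le hS α
  have k2 := mul_le_mul_of_nonneg_left (nps_le hS' α) hw
  have k3 : 0 ≤ w * S' := mul_nonneg hw hS0'
  by_cases hv : IsNonarchimedean v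
  · have h3 := h1 hv
    exact ⟨k1.trans ((le_max_left _ _).trans h3), k2.trans ((le_max_right _ _).trans h3)⟩
  · have h3 := h2 hv
    exact ⟨by linarith, by linarith⟩

theorem deg_le {m n : ℕ} {T : ℝ} (h : ∀ a : ℝ, 1 ≤ a → a ^ m ≤ T * a ^ n) : m ≤ n := by
  by_contra hcon
  have hlt : n + 1 ≤ m := by omega
  have ha : (1 : ℝ) ≤ max 1 (T + 1) := le_max_left _ _
  have h1 := h _ ha
  have h2 : (max 1 (T + 1)) ^ (n + 1) ≤ (max 1 (T + 1)) ^ m := pow_le_pow_right₀ ha hlt
  have h3 : 0 < (max 1 (T + 1)) ^ n := by positivity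
  rw [pow_succ'] at h2
  have h4 : max 1 (T + 1) ≤ T := le_of_mul_le_mul_right (h2.trans h1) h3
  have h5 : T + 1 ≤ max 1 (T + 1) := le_max_right _ _
  linarith

/-- **EXTR** -/
theorem extr : EXTR := by
  classical
  intro K _ β f T w dx dc hw h
  have hw0 : ∀ v, 0 ≤ w v := fun v => le_trans zero_le_one (hw v)
  have hk : ∀ (v : AbsoluteValue K ℝ) (a b : ℝ), 1 ≤ a → 1 ≤ b → ∀ α,
      v (coeff α f.re) * (a ^ α 0 * b ^ α 1) ≤ T v * a ^ dx * b ^ dc ∧
      (w v * a ^ 2 * b ^ 2) * (v (coeff α f.im) * (a ^ α 0 * b ^ α 1)) ≤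
        T v * a ^ dx * b ^ dc := by
    intro v a b ha hb α
    have ha0 : 0 ≤ a := le_trans zero_le_one ha
    have hb0 : 0 ≤ b := le_trans zero_le_one hb
    exact key (by have := hw0 v; positivity) (h v a b ha hb) α
  refine ⟨?_, ?_, ?_⟩
  · intro α hα
    have hv : (AbsoluteValue.trivial : AbsoluteValue K ℝ) (coeff α f.re) = 1 :=
      AbsoluteValue.trivial_apply hα
    constructor
    · apply deg_le (T := T AbsoluteValue.trivial)
      intro a ha
      have h1 := (hk AbsoluteValue.trivial a 1 ha le_rfl α).1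
      rw [hv] at h1
      simpa using h1
    · apply deg_le (T := T AbsoluteValue.trivial)
      intro b hb
      have h1 := (hk AbsoluteValue.trivial 1 b le_rfl hb α).1
      rw [hv] at h1
      simpa using h1
  · intro α hα
    have hv : (AbsoluteValue.trivial : AbsoluteValue K ℝ) (coeff α f.im) = 1 :=
      AbsoluteValue.trivial_apply hα
    have hwt := hw AbsoluteValue.trivial
    constructor
    · apply deg_le (T := T AbsoluteValue.trivial)
      intro a ha
      have h1 := (hk AbsoluteValue.trivial a 1 ha le_rfl α).2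
      rw [hv, one_pow, one_pow, one_pow, mul_one, mul_one, mul_one, one_mul] at h1
      have ha0 : 0 ≤ a := le_trans zero_le_one ha
      calc a ^ (α 0 + 2) = a ^ 2 * a ^ α 0 := by ring
        _ ≤ w AbsoluteValue.trivial * (a ^ 2 * a ^ α 0) :=
            le_mul_of_one_le_left (by positivity) hwt
        _ = w AbsoluteValue.trivial * a ^ 2 * a ^ α 0 := by ring
        _ ≤ _ := h1
    · apply deg_le (T := T AbsoluteValue.trivial)
      intro b hb
      have h1 := (hk AbsoluteValue.trivial 1 b le_rfl hb α).2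
      rw [hv, one_pow, one_pow, one_pow, mul_one, mul_one, one_mul, one_mul] at h1
      have hb0 : 0 ≤ b := le_trans zero_le_one hb
      calc b ^ (α 1 + 2) = b ^ 2 * b ^ α 1 := by ring
        _ ≤ w AbsoluteValue.trivial * (b ^ 2 * b ^ α 1) :=
            le_mul_of_one_le_left (by positivity) hwt
        _ = w AbsoluteValue.trivial * b ^ 2 * b ^ α 1 := by ring
        _ ≤ _ := h1
  · intro v α
    have h1 := hk v 1 1 le_rfl le_rfl α
    simp only [one_pow, mul_one] at h1
    refine ⟨h1.1, ?_⟩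
    exact (le_mul_of_one_le_left (v.nonneg _) (hw v)).trans h1.2

end

end Pool.Agent.Helper35.SGB
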