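import Pool.Agent.Helper12.SG.GoalsE
import Pool.Agent.Helper29.BL.PS

/-!
# Project SG (MP_a41896_nt), module B, packet LAWN: the law entries in a norm frame
-/

set_option autoImplicit false

namespace Pool.Agent.Helper35.SGB

open WeierstrassCurve Height Height.AdmissibleAbsValues
open Pool.Agent.Helper29.BL Pool.Agent.Helper42.SG Pool.Agent.Helper12.SG

noncomputable section

section frame

variable {K : Type} [Field K] {v : AbsoluteValue K ℝ} {A : Type} [CommRing A] [Algebra K A]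
  {N : A → ℝ → Prop}

/-- norm at most `cst v m * T`. -/
def NN (v : AbsoluteValue K ℝ) (N : A → ℝ → Prop) (f : A) (m T : ℝ) : Prop := N f (cst v m * T)

theorem cst_one (v : AbsoluteValue K ℝ) : cst v 1 = 1 := by
  unfold cst
  split_ifs <;> rfl

omit [CommRing A] [Algebra K A] in
theorem NN.of {f : A} {T : ℝ} (h : N f T) : NN v N f 1 T := by
  unfold NN
  rwa [cst_one, one_mul]

theorem NN.add (hN : NFr v N) {f g : A} {m n T : ℝ} (hf : NN v N f m T) (hg : NN v N g n T) :
    NN v N (f + g) (m + n) T := by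
  unfold NN at *
  by_cases hv : IsNonarchimedean v
  · rw [cst_of_nonarch hv] at hf hg ⊢
    have h1 := hN.max hv f g _ _ hf hg
    rwa [max_self] at h1
  · rw [cst_of_not_nonarch hv] at hf hg ⊢
    have h1 := hN.add f g _ _ hf hg
    rwa [← add_mul] at h1

theorem NN.mul (hN : NFr v N) {f g : A} {m n S T : ℝ} (hf : NN v N f m S) (hg : NN v N g n T) :
    NN v N (f * g) (m * n) (S * T) := by
  unfold NN at *
  have h1 := hN.mul f g _ _ hf hg
  rwa [mul_mul_mul_comm, ← cst_mul] at h1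

theorem NN.mono (hN : NFr v N) {f : A} {m n S T : ℝ} (hf : NN v N f m S) (hm : m ≤ n)
    (hn : 1 ≤ n) (hS0 : 0 ≤ S) (hS : S ≤ T) : NN v N f n T :=
  hN.mono _ _ _ hf (mul_le_mul (cst_mono v hm) hS hS0 (cst_pos v hn).le)

theorem NN.neg (hN : NFr v N) {f : A} {m T : ℝ} (hf : NN v N f m T) : NN v N (-f) m T := by
  unfold NN at *
  have h1 := hN.mul (algebraMap K A (-1)) f _ _ (hN.const (-1)) hf
  have h2 : v (-1) = 1 := by rw [AbsoluteValue.map_neg, map_one]
  rw [h2, one_mul, map_neg, map_one, neg_one_mul] at h1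
  exact h1

theorem NN.sub (hN : NFr v N) {f g : A} {m n T : ℝ} (hf : NN v N f m T) (hg : NN v N g n T) :
    NN v N (f - g) (m + n) T := by
  rw [sub_eq_add_neg]
  exact hf.add hN (hg.neg hN)

theorem NN.one (hN : NFr v N) : NN v N (1 : A) 1 1 := by
  apply NN.of
  have h1 := hN.const 1
  rwa [map_one, map_one] at h1

theorem NN.nat (hN : NFr v N) (n : ℕ) : NN v N ((n + 1 : ℕ) : A) (n + 1 : ℕ) 1 := by
  induction n with
  | zero =>
    rw [zero_add, Nat.cast_one, Nat.cast_one]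
    exact NN.one hN
  | succ n ih =>
    rw [Nat.cast_add (n + 1) 1, Nat.cast_add (n + 1) 1, Nat.cast_one, Nat.cast_one]
    exact ih.add hN (NN.one hN)

theorem NN.pow (hN : NFr v N) {f : A} {m T : ℝ} (hf : NN v N f m T) (n : ℕ) :
    NN v N (f ^ n) (m ^ n) (T ^ n) := by
  induction n with
  | zero =>
    rw [pow_zero, pow_zero, pow_zero]
    exact NN.one hN
  | succ n ih =>
    rw [pow_succ, pow_succ, pow_succ]
    exact ih.mul hN hf

theorem nn2 (hN : NFr v N) : NN v N (2 : A) 2 1 := by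
  have h := NN.nat hN 1
  norm_num at h
  exact h

theorem nn4 (hN : NFr v N) : NN v N (4 : A) 4 1 := by
  have h := NN.nat hN 3
  norm_num at h
  exact h

theorem nn5 (hN : NFr v N) : NN v N (5 : A) 5 1 := by
  have h := NN.nat hN 4
  norm_num at h
  exact h

theorem nn10 (hN : NFr v N) : NN v N (10 : A) 10 1 := by
  have h := NN.nat hN 9
  norm_num at h
  exact h

section curve

variable (W : Affine K)

theorem nb2 (hN : NFr v N) : NN v N (W.map (algebraMap K A)).b₂ 1 (bet W v) := by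
  apply NN.of
  rw [WeierstrassCurve.map_b₂]
  refine hN.mono _ _ _ (hN.const W.b₂) ?_
  unfold bet
  exact le_max_of_le_right (le_max_left _ _)

theorem nb4 (hN : NFr v N) : NN v N (W.map (algebraMap K A)).b₄ 1 (bet W v) := by
  apply NN.of
  rw [WeierstrassCurve.map_b₄]
  refine hN.mono _ _ _ (hN.const W.b₄) ?_
  unfold bet
  exact le_max_of_le_right (le_max_of_le_right (le_max_left _ _))

theorem nb6 (hN : NFr v N) : NN v N (W.map (algebraMap K A)).b₆ 1 (bet W v) := by
  apply NN.of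
  rw [WeierstrassCurve.map_b₆]
  refine hN.mono _ _ _ (hN.const W.b₆) ?_
  unfold bet
  exact le_max_of_le_right (le_max_of_le_right (le_max_of_le_right (le_max_left _ _)))

theorem nb8 (hN : NFr v N) : NN v N (W.map (algebraMap K A)).b₈ 1 (bet W v) := by
  apply NN.of
  rw [WeierstrassCurve.map_b₈]
  refine hN.mono _ _ _ (hN.const W.b₈) ?_
  unfold bet
  exact le_max_of_le_right (le_max_of_le_right (le_max_of_le_right (le_max_right _ _)))

variable {t z : A} {m : ℝ}

theorem nnA (hN : NFr v N) (hm : 1 ≤ m) (ht : N t m) (hz : N z m) :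
    NN v N (Ah (W.map (algebraMap K A)) t z) 5 (bet W v * m ^ 4) := by
  have t1 : NN v N t 1 m := NN.of ht
  have z1 : NN v N z 1 m := NN.of hz
  have hb := one_le_bet W v
  have hb0 := bet_pos W v
  have hm0 : 0 < m := by linarith
  have e1 : NN v N (t ^ 4) 1 (bet W v * m ^ 4) :=
    (t1.pow hN 4).mono hN (by norm_num) (by norm_num) (by positivity)
      (le_mul_of_one_le_left (by positivity) hb)
  have e2 : NN v N ((W.map (algebraMap K A)).b₄ * t ^ 2 * z ^ 2) 1 (bet W v * m ^ 4) :=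
    (((nb4 W hN).mul hN (t1.pow hN 2)).mul hN (z1.pow hN 2)).mono hN (by norm_num)
      (by norm_num) (by positivity) (le_of_eq (by ring))
  have e3 : NN v N (2 * (W.map (algebraMap K A)).b₆ * t * z ^ 3) 2 (bet W v * m ^ 4) :=
    ((((nn2 hN).mul hN (nb6 W hN)).mul hN t1).mul hN (z1.pow hN 3)).mono hN (by norm_num)
      (by norm_num) (by positivity) (le_of_eq (by ring))
  have e4 : NN v N ((W.map (algebraMap K A)).b₈ * z ^ 4) 1 (bet W v * m ^ 4) :=
    ((nb8 W hN).mul hN (z1.pow hN 4)).mono hN (by norm_num)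
      (by norm_num) (by positivity) (le_of_eq (by ring))
  exact (((e1.sub hN e2).sub hN e3).sub hN e4).mono hN (by norm_num) (by norm_num)
    (by positivity) le_rfl

theorem nnB (hN : NFr v N) (hm : 1 ≤ m) (ht : N t m) (hz : N z m) :
    NN v N (Bh (W.map (algebraMap K A)) t z) 8 (bet W v * m ^ 4) := by
  have t1 : NN v N t 1 m := NN.of ht
  have z1 : NN v N z 1 m := NN.of hz
  have hb := one_le_bet W v
  have hb0 := bet_pos W v
  have hm0 : 0 < m := by linarith
  have e1 : NN v N (4 * t ^ 3 * z) 4 (bet W v * m ^ 4) := by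
    refine (((nn4 hN).mul hN (t1.pow hN 3)).mul hN z1).mono hN (by norm_num)
      (by norm_num) (by positivity) ?_
    calc 1 * m ^ 3 * m = m ^ 4 := by ring
      _ ≤ bet W v * m ^ 4 := le_mul_of_one_le_left (by positivity) hb
  have e2 : NN v N ((W.map (algebraMap K A)).b₂ * t ^ 2 * z ^ 2) 1 (bet W v * m ^ 4) :=
    (((nb2 W hN).mul hN (t1.pow hN 2)).mul hN (z1.pow hN 2)).mono hN (by norm_num)
      (by norm_num) (by positivity) (le_of_eq (by ring))
  have e3 : NN v N (2 * (W.map (algebraMap K A)).b₄ * t * z ^ 3) 2 (bet W v * m ^ 4) :=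
    ((((nn2 hN).mul hN (nb4 W hN)).mul hN t1).mul hN (z1.pow hN 3)).mono hN (by norm_num)
      (by norm_num) (by positivity) (le_of_eq (by ring))
  have e4 : NN v N ((W.map (algebraMap K A)).b₆ * z ^ 4) 1 (bet W v * m ^ 4) :=
    ((nb6 W hN).mul hN (z1.pow hN 4)).mono hN (by norm_num)
      (by norm_num) (by positivity) (le_of_eq (by ring))
  exact (((e1.add hN e2).add hN e3).add hN e4).mono hN (by norm_num) (by norm_num)
    (by positivity) le_rfl

theorem nnC (hN : NFr v N) (hm : 1 ≤ m) (ht : N t m) (hz : N z m) :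
    NN v N (Ch (W.map (algebraMap K A)) t z) 32 (bet W v ^ 2 * m ^ 6) := by
  have t1 : NN v N t 1 m := NN.of ht
  have z1 : NN v N z 1 m := NN.of hz
  have hb := one_le_bet W v
  have hb0 := bet_pos W v
  have hb2 : bet W v ≤ bet W v ^ 2 := by nlinarith
  have hb3 : 1 ≤ bet W v ^ 2 := by nlinarith
  have hm0 : 0 < m := by linarith
  have hm6 : 0 ≤ m ^ 6 := by positivity
  have k1 : bet W v * m ^ 6 ≤ bet W v ^ 2 * m ^ 6 := mul_le_mul_of_nonneg_right hb2 hm6
  have e1 : NN v N (2 * t ^ 6) 2 (bet W v ^ 2 * m ^ 6) := by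
    refine ((nn2 hN).mul hN (t1.pow hN 6)).mono hN (by norm_num)
      (by norm_num) (by positivity) ?_
    rw [one_mul]
    exact le_mul_of_one_le_left hm6 hb3
  have e2 : NN v N ((W.map (algebraMap K A)).b₂ * t ^ 5 * z) 1 (bet W v ^ 2 * m ^ 6) := by
    refine (((nb2 W hN).mul hN (t1.pow hN 5)).mul hN z1).mono hN (by norm_num)
      (by norm_num) (by positivity) (le_trans (le_of_eq (by ring)) k1)
  have e3 : NN v N (5 * (W.map (algebraMap K A)).b₄ * t ^ 4 * z ^ 2) 5
      (bet W v ^ 2 * m ^ 6) := by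
    refine ((((nn5 hN).mul hN (nb4 W hN)).mul hN (t1.pow hN 4)).mul hN
      (z1.pow hN 2)).mono hN (by norm_num)
      (by norm_num) (by positivity) (le_trans (le_of_eq (by ring)) k1)
  have e4 : NN v N (10 * (W.map (algebraMap K A)).b₆ * t ^ 3 * z ^ 3) 10
      (bet W v ^ 2 * m ^ 6) := by
    refine ((((nn10 hN).mul hN (nb6 W hN)).mul hN (t1.pow hN 3)).mul hN
      (z1.pow hN 3)).mono hN (by norm_num)
      (by norm_num) (by positivity) (le_trans (le_of_eq (by ring)) k1)
  have e5 : NN v N (10 * (W.map (algebraMap K A)).b₈ * t ^ 2 * z ^ 4) 10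
      (bet W v ^ 2 * m ^ 6) := by
    refine ((((nn10 hN).mul hN (nb8 W hN)).mul hN (t1.pow hN 2)).mul hN
      (z1.pow hN 4)).mono hN (by norm_num)
      (by norm_num) (by positivity) (le_trans (le_of_eq (by ring)) k1)
  have e6 : NN v N (((W.map (algebraMap K A)).b₂ * (W.map (algebraMap K A)).b₈ -
      (W.map (algebraMap K A)).b₄ * (W.map (algebraMap K A)).b₆) * t * z ^ 5) 2
      (bet W v ^ 2 * m ^ 6) := by
    refine (((((nb2 W hN).mul hN (nb8 W hN)).sub hN ((nb4 W hN).mul hN (nb6 W hN))).mul hN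
      t1).mul hN (z1.pow hN 5)).mono hN (by norm_num)
      (by norm_num) (by positivity) (le_of_eq (by ring))
  have e7 : NN v N (((W.map (algebraMap K A)).b₄ * (W.map (algebraMap K A)).b₈ -
      (W.map (algebraMap K A)).b₆ ^ 2) * z ^ 6) 2 (bet W v ^ 2 * m ^ 6) := by
    have f1 : NN v N ((W.map (algebraMap K A)).b₄ * (W.map (algebraMap K A)).b₈) 1
        (bet W v ^ 2) :=
      ((nb4 W hN).mul hN (nb8 W hN)).mono hN (by norm_num) (by norm_num) (by positivity)
        (le_of_eq (by ring))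
    have f2 : NN v N ((W.map (algebraMap K A)).b₆ ^ 2) 1 (bet W v ^ 2) :=
      ((nb6 W hN).pow hN 2).mono hN (by norm_num) (by norm_num) (by positivity) le_rfl
    refine ((f1.sub hN f2).mul hN (z1.pow hN 6)).mono hN (by norm_num)
      (by norm_num) (by positivity) le_rfl
  exact ((((((e1.add hN e2).add hN e3).add hN e4).add hN e5).add hN e6).add hN e7).mono hN
    (by norm_num) (by norm_num) (by positivity) le_rfl

/-- the constant. -/
def cc0 (W : Affine K) (v : AbsoluteValue K ℝ) : ℝ := cst v 1000 * bet W v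

theorem one_le_cc0 : 1 ≤ cc0 W v :=
  one_le_mul_of_one_le_of_one_le (one_le_cst v (by norm_num)) (one_le_bet W v)

theorem boundPh (hN : NFr v N) {x : A} {a : ℝ} (ha : 1 ≤ a) (hx : N x a) (e : ℕ) :
    N (Ph (W.map (algebraMap K A)) e x).1 (cc0 W v ^ (4 ^ e - 1) * a ^ (4 ^ e)) ∧
    N (Ph (W.map (algebraMap K A)) e x).2 (cc0 W v ^ (4 ^ e - 1) * a ^ (4 ^ e)) := by
  have hc := one_le_cc0 (v := v) W
  induction e with
  | zero =>
    rw [pow_zero, Nat.sub_self, pow_zero, one_mul, pow_one]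
    refine ⟨hx, ?_⟩
    have h1 := NN.one hN
    unfold NN at h1
    rw [cst_one, one_mul] at h1
    exact hN.mono _ _ _ h1 ha
  | succ e ih =>
    set M : ℝ := cc0 W v ^ (4 ^ e - 1) * a ^ (4 ^ e) with hM
    have hM1 : 1 ≤ M := one_le_mul_of_one_le_of_one_le (one_le_pow₀ hc) (one_le_pow₀ ha)
    have h4 : 1 ≤ 4 ^ e := Nat.one_le_pow _ _ (by norm_num)
    have hstep : cc0 W v * M ^ 4 ≤ cc0 W v ^ (4 ^ (e + 1) - 1) * a ^ (4 ^ (e + 1)) := by
      have h5 : cc0 W v * M ^ 4 = cc0 W v ^ (1 + (4 ^ e - 1) * 4) * a ^ (4 ^ (e + 1)) := by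
        rw [hM, mul_pow, ← pow_mul, ← pow_mul, ← pow_succ 4 e]
        ring
      rw [h5]
      apply mul_le_mul_of_nonneg_right _ (by positivity)
      apply pow_le_pow_right₀ hc
      rw [pow_succ]
      omega
    have hA : ∀ m : ℝ, m ≤ 1000 → cst v m * (bet W v * M ^ 4) ≤ cc0 W v * M ^ 4 := by
      intro m hm
      unfold cc0
      rw [mul_assoc]
      exact mul_le_mul_of_nonneg_right (cst_mono v hm)
        (by have := bet_pos W v; positivity)
    exact ⟨hN.mono _ _ _ (nnA W hN hM1 ih.1 ih.2) ((hA 5 (by norm_num)).trans hstep),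
      hN.mono _ _ _ (nnB W hN hM1 ih.1 ih.2) ((hA 8 (by norm_num)).trans hstep)⟩

theorem boundRr (hN : NFr v N) {x : A} {a : ℝ} (ha : 1 ≤ a) (hx : N x a) (e : ℕ) :
    N (Rr (W.map (algebraMap K A)) e x) (cc0 W v ^ (2 * 4 ^ e) * a ^ (2 * (4 ^ e - 1))) := by
  have hc := one_le_cc0 (v := v) W
  induction e with
  | zero =>
    have h1 := NN.one hN
    unfold NN at h1
    rw [cst_one, one_mul] at h1
    refine hN.mono _ _ _ h1 ?_
    rw [pow_zero, Nat.sub_self, mul_zero, pow_zero, mul_one]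
    exact one_le_pow₀ hc
  | succ e ih =>
    obtain ⟨h1, h2⟩ := boundPh W hN ha hx e
    set M : ℝ := cc0 W v ^ (4 ^ e - 1) * a ^ (4 ^ e) with hM
    have hM1 : 1 ≤ M := one_le_mul_of_one_le_of_one_le (one_le_pow₀ hc) (one_le_pow₀ ha)
    have h4 : 1 ≤ 4 ^ e := Nat.one_le_pow _ _ (by norm_num)
    have hC : cst v 32 * (bet W v ^ 2 * M ^ 6) ≤ cc0 W v ^ 2 * M ^ 6 := by
      rw [← mul_assoc]
      refine mul_le_mul_of_nonneg_right ?_ (by positivity)
      unfold cc0
      rw [mul_pow (cst v 1000)]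
      refine mul_le_mul_of_nonneg_right ?_ (by positivity)
      have h5 : (1 : ℝ) ≤ cst v 1000 := one_le_cst v (by norm_num)
      have h6 : cst v 32 ≤ cst v 1000 := cst_mono v (by norm_num)
      nlinarith
    have h7 := hN.mul _ _ _ _ ih (hN.mono _ _ _ (nnC W hN hM1 h1 h2) hC)
    refine hN.mono _ _ _ h7 ?_
    have h8 : cc0 W v ^ (2 * 4 ^ e) * a ^ (2 * (4 ^ e - 1)) * (cc0 W v ^ 2 * M ^ 6)
        = cc0 W v ^ (2 * 4 ^ e + 2 + (4 ^ e - 1) * 6) *
          a ^ (2 * (4 ^ e - 1) + 4 ^ e * 6) := by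
      rw [hM, mul_pow, ← pow_mul, ← pow_mul, pow_add, pow_add, pow_add]
      ring
    rw [h8]
    have h9 : 2 * (4 ^ e - 1) + 4 ^ e * 6 = 2 * (4 ^ (e + 1) - 1) := by
      rw [pow_succ]
      omega
    rw [h9]
    apply mul_le_mul_of_nonneg_right _ (by positivity)
    apply pow_le_pow_right₀ hc
    rw [pow_succ]
    omega

variable {y : A} {b : ℝ}

theorem nnU (hN : NFr v N) (hm : 1 ≤ m) (hb1 : 1 ≤ b) (ht : N t m) (hz : N z m) (hy : N y b) :
    NN v N (2 * Uh y t z) 8 (bet W v * (m ^ 2 * b ^ 2)) := by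
  have t1 : NN v N t 1 m := NN.of ht
  have z1 : NN v N z 1 m := NN.of hz
  have y1 : NN v N y 1 b := NN.of hy
  have hb := one_le_bet W v
  have hb0 := bet_pos W v
  have hm0 : 0 < m := by linarith
  have hbb : 0 < b := by linarith
  have e1 : NN v N t 1 (m * b) := t1.mono hN le_rfl le_rfl hm0.le
    (le_mul_of_one_le_right hm0.le hb1)
  have e2 : NN v N (y * z) 1 (m * b) := (y1.mul hN z1).mono hN (by norm_num) le_rfl
    (by positivity) (le_of_eq (by ring))
  have e3 := ((nn2 hN).mul hN ((e1.sub hN e2).pow hN 2))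
  unfold Uh
  refine e3.mono hN (by norm_num) (by norm_num) (by positivity) ?_
  calc 1 * (m * b) ^ 2 = m ^ 2 * b ^ 2 := by ring
    _ ≤ bet W v * (m ^ 2 * b ^ 2) := le_mul_of_one_le_left (by positivity) hb

theorem nnT (hN : NFr v N) (hm : 1 ≤ m) (hb1 : 1 ≤ b) (ht : N t m) (hz : N z m) (hy : N y b) :
    NN v N (Th (W.map (algebraMap K A)) y t z) 8 (bet W v * (m ^ 2 * b ^ 2)) := by
  have t1 : NN v N t 1 m := NN.of ht
  have z1 : NN v N z 1 m := NN.of hz
  have y1 : NN v N y 1 b := NN.of hy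
  have hb := one_le_bet W v
  have hb0 := bet_pos W v
  have hm0 : 0 < m := by linarith
  have hbb : 0 < b := by linarith
  have hbsq : b ≤ b ^ 2 := by nlinarith
  have hb2 : 1 ≤ b ^ 2 := by nlinarith
  have e1 : NN v N t 1 (m * b) := t1.mono hN le_rfl le_rfl hm0.le
    (le_mul_of_one_le_right hm0.le hb1)
  have e2 : NN v N (y * z) 1 (m * b) := (y1.mul hN z1).mono hN (by norm_num) le_rfl
    (by positivity) (le_of_eq (by ring))
  have e3 : NN v N (t + y * z) 2 (m * b) :=
    (e1.add hN e2).mono hN (by norm_num) (by norm_num) (by positivity) le_rfl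
  have k1 : m ^ 2 * b ^ 2 ≤ bet W v * (m ^ 2 * b ^ 2) :=
    le_mul_of_one_le_left (by positivity) hb
  have k2 : bet W v * (m ^ 2 * b) ≤ bet W v * (m ^ 2 * b ^ 2) :=
    mul_le_mul_of_nonneg_left (mul_le_mul_of_nonneg_left hbsq (by positivity)) hb0.le
  have k3 : bet W v * m ^ 2 ≤ bet W v * (m ^ 2 * b ^ 2) :=
    mul_le_mul_of_nonneg_left (le_mul_of_one_le_right (by positivity) hb2) hb0.le
  have f1 : NN v N (2 * (t + y * z) * (t * y)) 4 (bet W v * (m ^ 2 * b ^ 2)) :=
    (((nn2 hN).mul hN e3).mul hN (t1.mul hN y1)).mono hN (by norm_num) (by norm_num)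
      (by positivity) (le_trans (le_of_eq (by ring)) k1)
  have f2 : NN v N ((W.map (algebraMap K A)).b₂ * (t * z * y)) 1
      (bet W v * (m ^ 2 * b ^ 2)) :=
    ((nb2 W hN).mul hN ((t1.mul hN z1).mul hN y1)).mono hN (by norm_num) (by norm_num)
      (by positivity) (le_trans (le_of_eq (by ring)) k2)
  have f3 : NN v N ((W.map (algebraMap K A)).b₄ * (t + y * z) * z) 2
      (bet W v * (m ^ 2 * b ^ 2)) :=
    (((nb4 W hN).mul hN e3).mul hN z1).mono hN (by norm_num) (by norm_num)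
      (by positivity) (le_trans (le_of_eq (by ring)) k2)
  have f4 : NN v N ((W.map (algebraMap K A)).b₆ * z ^ 2) 1
      (bet W v * (m ^ 2 * b ^ 2)) :=
    ((nb6 W hN).mul hN (z1.pow hN 2)).mono hN (by norm_num) (by norm_num)
      (by positivity) k3
  exact (((f1.add hN f2).add hN f3).add hN f4).mono hN (by norm_num) (by norm_num)
    (by positivity) le_rfl

theorem nnS (hN : NFr v N) (hm : 1 ≤ m) (hb1 : 1 ≤ b) (ht : N t m) (hz : N z m) (hy : N y b) :
    NN v N (2 * Sh (W.map (algebraMap K A)) y t z) 10 (bet W v * (m ^ 2 * b ^ 2)) := by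
  have t1 : NN v N t 1 m := NN.of ht
  have z1 : NN v N z 1 m := NN.of hz
  have y1 : NN v N y 1 b := NN.of hy
  have hb := one_le_bet W v
  have hb0 := bet_pos W v
  have hm0 : 0 < m := by linarith
  have hbb : 0 < b := by linarith
  have hbsq : b ≤ b ^ 2 := by nlinarith
  have hb2 : 1 ≤ b ^ 2 := by nlinarith
  have e1 : NN v N t 1 (m * b) := t1.mono hN le_rfl le_rfl hm0.le
    (le_mul_of_one_le_right hm0.le hb1)
  have e2 : NN v N (y * z) 1 (m * b) := (y1.mul hN z1).mono hN (by norm_num) le_rfl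
    (by positivity) (le_of_eq (by ring))
  have e3 : NN v N (t + y * z) 2 (m * b) :=
    (e1.add hN e2).mono hN (by norm_num) (by norm_num) (by positivity) le_rfl
  have k1 : m ^ 2 * b ^ 2 ≤ bet W v * (m ^ 2 * b ^ 2) :=
    le_mul_of_one_le_left (by positivity) hb
  have k2 : bet W v * (m ^ 2 * b) ≤ bet W v * (m ^ 2 * b ^ 2) :=
    mul_le_mul_of_nonneg_left (mul_le_mul_of_nonneg_left hbsq (by positivity)) hb0.le
  have k3 : bet W v * m ^ 2 ≤ bet W v * (m ^ 2 * b ^ 2) :=
    mul_le_mul_of_nonneg_left (le_mul_of_one_le_right (by positivity) hb2) hb0.le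
  have f1 : NN v N ((t * y) ^ 2) 1 (bet W v * (m ^ 2 * b ^ 2)) :=
    ((t1.mul hN y1).pow hN 2).mono hN (by norm_num) (by norm_num)
      (by positivity) (le_trans (le_of_eq (by ring)) k1)
  have f2 : NN v N ((W.map (algebraMap K A)).b₄ * (t * z * y)) 1
      (bet W v * (m ^ 2 * b ^ 2)) :=
    ((nb4 W hN).mul hN ((t1.mul hN z1).mul hN y1)).mono hN (by norm_num) (by norm_num)
      (by positivity) (le_trans (le_of_eq (by ring)) k2)
  have f3 : NN v N ((W.map (algebraMap K A)).b₆ * (t + y * z) * z) 2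
      (bet W v * (m ^ 2 * b ^ 2)) :=
    (((nb6 W hN).mul hN e3).mul hN z1).mono hN (by norm_num) (by norm_num)
      (by positivity) (le_trans (le_of_eq (by ring)) k2)
  have f4 : NN v N ((W.map (algebraMap K A)).b₈ * z ^ 2) 1
      (bet W v * (m ^ 2 * b ^ 2)) :=
    ((nb8 W hN).mul hN (z1.pow hN 2)).mono hN (by norm_num) (by norm_num)
      (by positivity) k3
  exact ((nn2 hN).mul hN (((f1.sub hN f2).sub hN f3).sub hN f4)).mono hN (by norm_num)
    (by norm_num) (by positivity) (le_of_eq (by ring))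

end curve

end frame

/-- **LAWN** -/
theorem lawn : LAWN := by
  intro K _ _ W
  refine ⟨fun v => cc0 W v ^ 4, ⟨fun v => one_le_pow₀ (one_le_cc0 W), ?_⟩, ?_⟩
  · have h1 : FS (K := K) fun v => 4 * (Real.log (cst v 1000) + Real.log (bet W v)) :=
      FS.const_mul 4 ((FS_log_cst 1000).add (FS_log_bet W))
    refine h1.mono fun v _ h => ?_
    have h2 : Real.log (cc0 W v ^ 4) = 4 * (Real.log (cst v 1000) + Real.log (bet W v)) := by
      unfold cc0
      rw [Real.log_pow, Real.log_mul (cst_pos v (by norm_num)).ne' (bet_pos W v).ne']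
      norm_num
    simp only [h2]
    exact h
  · intro v A _ _ N hN e l x y η a b w ha hb hw hx hy hη
    have hc := one_le_cc0 (v := v) W
    obtain ⟨h1, h2⟩ := boundPh W hN ha hx e
    have h3 := boundRr W hN ha hx e
    set M : ℝ := cc0 W v ^ (4 ^ e - 1) * a ^ (4 ^ e) with hM
    have hM1 : 1 ≤ M := one_le_mul_of_one_le_of_one_le (one_le_pow₀ hc) (one_le_pow₀ ha)
    have h4 : 1 ≤ 4 ^ e := Nat.one_le_pow _ _ (by norm_num)
    have hM0 : 0 < M := by linarith
    have hb0 : 0 < b := by linarith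
    have ha0 : 0 < a := by linarith
    have hc0 : 0 < cc0 W v := by linarith
    set Q : ℝ := w * cc0 W v ^ (2 * 4 ^ e) * a ^ (2 * 4 ^ e) * b ^ 2 with hQ
    have hQ0 : 0 ≤ Q := by positivity
    -- the final bound
    have hfin : cst v 2 * Q ≤ w * (cc0 W v ^ 4) ^ (4 ^ e) * a ^ (2 * 4 ^ e) * b ^ 2 := by
      have k1 : cst v 2 ≤ cc0 W v := by
        unfold cc0
        calc cst v 2 ≤ cst v 1000 := cst_mono v (by norm_num)
          _ ≤ cst v 1000 * bet W v := le_mul_of_one_le_right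
              (cst_pos v (by norm_num)).le (one_le_bet W v)
      calc cst v 2 * Q ≤ cc0 W v * Q := mul_le_mul_of_nonneg_right k1 hQ0
        _ = w * cc0 W v ^ (2 * 4 ^ e + 1) * a ^ (2 * 4 ^ e) * b ^ 2 := by
            rw [hQ, pow_succ]
            ring
        _ ≤ w * (cc0 W v ^ 4) ^ (4 ^ e) * a ^ (2 * 4 ^ e) * b ^ 2 := by
            rw [← pow_mul]
            have k2 : cc0 W v ^ (2 * 4 ^ e + 1) ≤ cc0 W v ^ (4 * 4 ^ e) :=
              pow_le_pow_right₀ hc (by omega)
            gcongr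
    have hcQ : ∀ m : ℝ, m ≤ 1000 → cst v m * (bet W v * (M ^ 2 * b ^ 2)) ≤ Q := by
      intro m hm
      calc cst v m * (bet W v * (M ^ 2 * b ^ 2)) ≤ cc0 W v * (M ^ 2 * b ^ 2) := by
            unfold cc0
            rw [mul_assoc (cst v 1000)]
            exact mul_le_mul_of_nonneg_right (cst_mono v hm)
              (by have := bet_pos W v; positivity)
        _ = cc0 W v ^ (1 + (4 ^ e - 1) * 2) * a ^ (2 * 4 ^ e) * b ^ 2 := by
            rw [hM, mul_pow, ← pow_mul, ← pow_mul, pow_add, pow_one, mul_comm (4 ^ e) 2]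
            ring
        _ ≤ cc0 W v ^ (2 * 4 ^ e) * a ^ (2 * 4 ^ e) * b ^ 2 := by
            have k2 : cc0 W v ^ (1 + (4 ^ e - 1) * 2) ≤ cc0 W v ^ (2 * 4 ^ e) :=
              pow_le_pow_right₀ hc (by omega)
            gcongr
        _ ≤ w * (cc0 W v ^ (2 * 4 ^ e) * a ^ (2 * 4 ^ e) * b ^ 2) :=
            le_mul_of_one_le_left (by positivity) hw
        _ = Q := by rw [hQ]; ring
    have hU : NN v N (2 * Uh y (Ph (W.map (algebraMap K A)) e x).1
        (Ph (W.map (algebraMap K A)) e x).2) 1 Q := by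
      apply NN.of
      exact hN.mono _ _ _ (nnU W hN hM1 hb h1 h2 hy) (hcQ 8 (by norm_num))
    have hT : NN v N (Th (W.map (algebraMap K A)) y (Ph (W.map (algebraMap K A)) e x).1
        (Ph (W.map (algebraMap K A)) e x).2) 1 Q := by
      apply NN.of
      exact hN.mono _ _ _ (nnT W hN hM1 hb h1 h2 hy) (hcQ 8 (by norm_num))
    have hS : NN v N (2 * Sh (W.map (algebraMap K A)) y (Ph (W.map (algebraMap K A)) e x).1
        (Ph (W.map (algebraMap K A)) e x).2) 1 Q := by
      apply NN.of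
      exact hN.mono _ _ _ (nnS W hN hM1 hb h1 h2 hy) (hcQ 10 (by norm_num))
    have hR : NN v N (η * Rr (W.map (algebraMap K A)) e x) 1 Q := by
      apply NN.of
      refine hN.mono _ _ _ (hN.mul _ _ _ _ hη h3) (le_of_eq ?_)
      have k1 : 2 * 4 ^ e = 2 + 2 * (4 ^ e - 1) := by omega
      rw [hQ]
      nth_rewrite 3 [k1]
      rw [pow_add a]
      ring
    have hcst12 : (1 : ℝ) + 1 = 2 := by norm_num
    have r1 : ∀ f : A, NN v N f 1 Q → N f (w * (cc0 W v ^ 4) ^ (4 ^ e) * a ^ (2 * 4 ^ e) *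
        b ^ 2) := fun f hf =>
      hN.mono _ _ _ (hf.mono hN (n := 2) (by norm_num) (by norm_num) hQ0 le_rfl) hfin
    have r2 : ∀ f : A, NN v N f (1 + 1) Q → N f (w * (cc0 W v ^ 4) ^ (4 ^ e) *
        a ^ (2 * 4 ^ e) * b ^ 2) := by
      intro f hf
      rw [hcst12] at hf
      exact hN.mono _ _ _ hf hfin
    unfold law
    cases l with
    | true =>
      simp only [if_true]
      exact ⟨r2 _ (hT.sub hN hR), r1 _ hS⟩
    | false =>
      simp only [Bool.false_eq_true, if_false]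
      exact ⟨r1 _ hU, r2 _ (hT.add hN hR)⟩

end

end Pool.Agent.Helper35.SGB
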