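import Pool.Agent.Helper12.SG.GoalsE

/-!
# Project SG (MP_a41896_nt), module B, packet NPSF: power series with radii form a norm frame
-/

set_option autoImplicit false

namespace Pool.Agent.Helper35.SGB

open WeierstrassCurve Height Height.AdmissibleAbsValues
open Pool.Agent.Helper29.BL Pool.Agent.Helper42.SG Pool.Agent.Helper12.SG

noncomputable section

section

variable {σ : Type} (r : σ → ℝ)

theorem rpw_zero : rpw r 0 = 1 := by
  unfold rpw
  exact Finsupp.prod_zero_index

theorem rpw_add (α β : σ →₀ ℕ) : rpw r (α + β) = rpw r α * rpw r β := by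
  classical
  unfold rpw
  exact Finsupp.prod_add_index' (fun i => pow_zero _) (fun i a b => pow_add _ _ _)

theorem rpw_pos (hr : ∀ i, 0 < r i) (α : σ →₀ ℕ) : 0 < rpw r α := by
  unfold rpw
  exact Finset.prod_pos fun i _ => pow_pos (hr i) _

end

theorem nonarch_sum {K : Type} [Field K] {v : AbsoluteValue K ℝ} (hv : IsNonarchimedean v)
    {ι : Type} (s : Finset ι) (h : ι → K) {C : ℝ} (hC : 0 ≤ C) (hi : ∀ i ∈ s, v (h i) ≤ C) :
    v (∑ i ∈ s, h i) ≤ C := by
  classical
  induction s using Finset.induction_on with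
  | empty =>
    rw [Finset.sum_empty, map_zero]
    exact hC
  | insert i s his ih =>
    rw [Finset.sum_insert his]
    exact (hv _ _).trans (max_le (hi i (Finset.mem_insert_self i s))
      (ih fun j hj => hi j (Finset.mem_insert_of_mem hj)))

/-- **NPSF** -/
theorem npsf : NPSF := by
  classical
  intro K _ v σ r hr
  have hpos := rpw_pos r hr
  constructor
  · intro k
    have hco : ∀ α : σ →₀ ℕ, v (MvPowerSeries.coeff α
        (algebraMap K (MvPowerSeries σ K) k)) * rpw r α = if α = 0 then v k else 0 := by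
      intro α
      rw [MvPowerSeries.algebraMap_apply, MvPowerSeries.coeff_C]
      split_ifs with h
      · rw [h, rpw_zero, mul_one]
        rfl
      · rw [map_zero, zero_mul]
    refine ⟨v.nonneg k, fun _ α => ?_, fun _ S => ?_⟩
    · rw [hco]
      split_ifs
      · exact le_rfl
      · exact v.nonneg k
    · rw [Finset.sum_congr rfl fun α _ => hco α, Finset.sum_ite_eq']
      split_ifs
      · exact le_rfl
      · exact v.nonneg k
  · intro f g S T hf hg
    refine ⟨mul_nonneg hf.1 hg.1, fun hv α => ?_, fun hv P => ?_⟩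
    · rw [MvPowerSeries.coeff_mul]
      rw [← le_div_iff₀ (hpos α)]
      apply nonarch_sum hv _ _ (div_nonneg (mul_nonneg hf.1 hg.1) (hpos α).le)
      intro x hx
      have hx' : x.1 + x.2 = α := Finset.HasAntidiagonal.mem_antidiagonal.1 hx
      rw [le_div_iff₀ (hpos α), ← hx', rpw_add, map_mul]
      have h1 := hf.2.1 hv x.1
      have h2 := hg.2.1 hv x.2
      calc v (MvPowerSeries.coeff x.1 f) * v (MvPowerSeries.coeff x.2 g) *
            (rpw r x.1 * rpw r x.2)
          = (v (MvPowerSeries.coeff x.1 f) * rpw r x.1) *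
            (v (MvPowerSeries.coeff x.2 g) * rpw r x.2) := by ring
        _ ≤ S * T := mul_le_mul h1 h2 (mul_nonneg (v.nonneg _) (hpos _).le) hf.1
    · have hF0 : ∀ x : (σ →₀ ℕ) × (σ →₀ ℕ), 0 ≤ (v (MvPowerSeries.coeff x.1 f) * rpw r x.1) *
          (v (MvPowerSeries.coeff x.2 g) * rpw r x.2) := fun x =>
        mul_nonneg (mul_nonneg (v.nonneg _) (hpos _).le) (mul_nonneg (v.nonneg _) (hpos _).le)
      set Q : Finset ((σ →₀ ℕ) × (σ →₀ ℕ)) := P.biUnion fun α => Finset.HasAntidiagonal.antidiagonal α with hQ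
      have h1 : ∑ α ∈ P, v (MvPowerSeries.coeff α (f * g)) * rpw r α ≤
          ∑ α ∈ P, ∑ x ∈ Finset.HasAntidiagonal.antidiagonal α, (v (MvPowerSeries.coeff x.1 f) * rpw r x.1) *
          (v (MvPowerSeries.coeff x.2 g) * rpw r x.2) := by
        apply Finset.sum_le_sum
        intro α _
        rw [MvPowerSeries.coeff_mul]
        calc v (∑ x ∈ Finset.HasAntidiagonal.antidiagonal α, MvPowerSeries.coeff x.1 f *
              MvPowerSeries.coeff x.2 g) * rpw r α
            ≤ (∑ x ∈ Finset.HasAntidiagonal.antidiagonal α, v (MvPowerSeries.coeff x.1 f *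
              MvPowerSeries.coeff x.2 g)) * rpw r α :=
              mul_le_mul_of_nonneg_right (v.sum_le _ _) (hpos α).le
          _ = ∑ x ∈ Finset.HasAntidiagonal.antidiagonal α, (v (MvPowerSeries.coeff x.1 f) * rpw r x.1) *
              (v (MvPowerSeries.coeff x.2 g) * rpw r x.2) := by
              rw [Finset.sum_mul]
              apply Finset.sum_congr rfl
              intro x hx
              have hx' : x.1 + x.2 = α := Finset.HasAntidiagonal.mem_antidiagonal.1 hx
              rw [← hx', rpw_add, map_mul]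
              ring
      have h2 : ∑ α ∈ P, ∑ x ∈ Finset.HasAntidiagonal.antidiagonal α,
          (v (MvPowerSeries.coeff x.1 f) * rpw r x.1) *
          (v (MvPowerSeries.coeff x.2 g) * rpw r x.2) =
          ∑ x ∈ Q, (v (MvPowerSeries.coeff x.1 f) * rpw r x.1) *
          (v (MvPowerSeries.coeff x.2 g) * rpw r x.2) := by
        rw [hQ, Finset.sum_biUnion]
        intro α _ β _ hab
        refine Finset.disjoint_left.2 fun x hx hx' => hab ?_
        rw [← Finset.HasAntidiagonal.mem_antidiagonal.1 hx, ← Finset.HasAntidiagonal.mem_antidiagonal.1 hx']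
      have h3 : ∑ x ∈ Q, (v (MvPowerSeries.coeff x.1 f) * rpw r x.1) *
          (v (MvPowerSeries.coeff x.2 g) * rpw r x.2) ≤
          ∑ x ∈ (Q.image Prod.fst) ×ˢ (Q.image Prod.snd),
            (v (MvPowerSeries.coeff x.1 f) * rpw r x.1) *
            (v (MvPowerSeries.coeff x.2 g) * rpw r x.2) :=
        Finset.sum_le_sum_of_subset_of_nonneg Finset.subset_product fun x _ _ => hF0 x
      have h4 : ∑ x ∈ (Q.image Prod.fst) ×ˢ (Q.image Prod.snd),
            (v (MvPowerSeries.coeff x.1 f) * rpw r x.1) *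
            (v (MvPowerSeries.coeff x.2 g) * rpw r x.2) =
          (∑ β ∈ Q.image Prod.fst, v (MvPowerSeries.coeff β f) * rpw r β) *
          (∑ γ ∈ Q.image Prod.snd, v (MvPowerSeries.coeff γ g) * rpw r γ) := by
        rw [Finset.sum_mul_sum, Finset.sum_product]
      have h5 := hf.2.2 hv (Q.image Prod.fst)
      have h6 := hg.2.2 hv (Q.image Prod.snd)
      calc _ ≤ _ := h1
        _ = _ := h2
        _ ≤ _ := h3
        _ = _ := h4
        _ ≤ S * T := mul_le_mul h5 h6
            (Finset.sum_nonneg fun _ _ => mul_nonneg (v.nonneg _) (hpos _).le) hf.1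
  · intro f g S T hf hg
    have hst : ∀ α, v (MvPowerSeries.coeff α (f + g)) * rpw r α ≤
        v (MvPowerSeries.coeff α f) * rpw r α + v (MvPowerSeries.coeff α g) * rpw r α := by
      intro α
      rw [map_add, ← add_mul]
      exact mul_le_mul_of_nonneg_right (v.add_le _ _) (hpos α).le
    refine ⟨add_nonneg hf.1 hg.1, fun hv α => ?_, fun hv P => ?_⟩
    · exact (hst α).trans (add_le_add (hf.2.1 hv α) (hg.2.1 hv α))
    · calc ∑ α ∈ P, v (MvPowerSeries.coeff α (f + g)) * rpw r α
          ≤ ∑ α ∈ P, (v (MvPowerSeries.coeff α f) * rpw r α +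
            v (MvPowerSeries.coeff α g) * rpw r α) := Finset.sum_le_sum fun α _ => hst α
        _ = ∑ α ∈ P, v (MvPowerSeries.coeff α f) * rpw r α +
            ∑ α ∈ P, v (MvPowerSeries.coeff α g) * rpw r α := Finset.sum_add_distrib
        _ ≤ S + T := add_le_add (hf.2.2 hv P) (hg.2.2 hv P)
  · intro hv f g S T hf hg
    refine ⟨le_max_of_le_left hf.1, fun _ α => ?_, fun h => absurd hv h⟩
    rw [map_add]
    have h1 := hf.2.1 hv α
    have h2 := hg.2.1 hv α
    have h3 : v (MvPowerSeries.coeff α f + MvPowerSeries.coeff α g) * rpw r α ≤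
        max (v (MvPowerSeries.coeff α f)) (v (MvPowerSeries.coeff α g)) * rpw r α :=
      mul_le_mul_of_nonneg_right (hv _ _) (hpos α).le
    refine h3.trans ?_
    rw [max_mul_of_nonneg _ _ (hpos α).le]
    exact max_le_max h1 h2
  · intro f S T hf hST
    exact ⟨hf.1.trans hST, fun hv α => (hf.2.1 hv α).trans hST,
      fun hv P => (hf.2.2 hv P).trans hST⟩
  · intro f T hf
    exact hf.1

end

end Pool.Agent.Helper35.SGB
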